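import Mathlib
import Pool.Agent.H451.BB.Def
import Pool.Agent.H451.BB.Def3
import Pool.Agent.H451.JR.Def
import Pool.Agent.H451.JR.Fin2

/-!
# The conjecture of Beilinson and Bloch for a positive proportion of all diagonal cubic hypersurfaces

The definitions are in `Pool.Agent.H451.BB.Def`, `Pool.Agent.H451.BB.Def3` (`AdmA`) and
`Pool.Agent.H451.JR.Def` (`pr`, `SelRk`).
-/

set_option autoImplicit false

namespace Pool.Agent.Results.MP_b8021b_nt.AllDiagonalCubicsByHeight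

open NumberField Pool.Agent.H451.CubT
open scoped Classical

/-- **Beilinson and Bloch for a positive proportion of all diagonal cubic hypersurfaces** of dimension
`1`, `3`, `5` over `K = ℚ(√-3)`, ordered by the norms of the coefficients, and the joint law of the
Selmer groups of all the elliptic curves in their middle cohomology. -/
theorem result (K : Type) [Field K] [NumberField K] [IsCyclotomicExtension {3} ℚ K] (m : ℕ)
    (hm : m = 3 ∨ m = 5 ∨ m = 7) :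
    (∀ a : Fin m → 𝓞 K, (∀ i, a i ≠ 0) →
      Mot a ∧ ((∀ S : Finset (Fin m), S.card = (m - 3) / 2 → Good (DS a S)) → BB a)) ∧
    (∃ c : ℝ, 0 < c ∧ ∃ X₀ : ℕ, ∀ X : ℕ, X₀ ≤ X →
      c * ({a : Fin m → 𝓞 K | ∀ i, a i ≠ 0 ∧ Algebra.norm ℤ (a i) ≤ X}.ncard : ℝ) ≤
        ({a : Fin m → 𝓞 K | (∀ i, a i ≠ 0 ∧ Algebra.norm ℤ (a i) ≤ X) ∧ BB a}.ncard : ℝ)) ∧
    (∃ c : ℝ, 0 < c ∧ ∃ X₀ : ℕ, ∀ X : ℕ, X₀ ≤ X →
      c * (X : ℝ) ^ m ≤ ({a : Fin m → 𝓞 K | (∀ i, Cls (a i) ∧ Algebra.norm ℤ (a i) ≤ X) ∧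
        AdmA a}.ncard : ℝ)) ∧
    (∀ a : Fin m → 𝓞 K, (∀ i, Cls (a i)) → AdmA a → (SelRk a (fun _ => 0) → BB a) ∧
      ∀ S : Finset (Fin m), S.card = (m - 3) / 2 → ∃ r : ℕ,
        (Pool.Agent.XL6.SelK ((DS a S : 𝓞 K) : K)).ncard = 3 ^ (r + 1) ∧
        Module.finrank ℤ (E ((DS a S : 𝓞 K) : K)).toAffine.Point ≤ 2 * r) ∧
    HasSum pr 1 ∧
    ∀ ρ : Finset (Fin m) → ℕ, Filter.Tendsto (fun X : ℕ =>
      ({a : Fin m → 𝓞 K | (∀ i, Cls (a i) ∧ Algebra.norm ℤ (a i) ≤ X) ∧ AdmA a ∧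
        SelRk a ρ}.ncard : ℝ) /
      ({a : Fin m → 𝓞 K | (∀ i, Cls (a i) ∧ Algebra.norm ℤ (a i) ≤ X) ∧ AdmA a}.ncard : ℝ))
      Filter.atTop (nhds (∏ S ∈ Finset.powersetCard ((m - 3) / 2) (Finset.univ : Finset (Fin m)),
        pr (ρ S))) :=
  Pool.Agent.H451.JR.final_all K m hm

end Pool.Agent.Results.MP_b8021b_nt.AllDiagonalCubicsByHeight
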