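import Pool.Agent.H458.AG.Gen
import Pool.Agent.H458.PD.Uni
import Pool.Agent.H458.BM.Bnd
import Pool.Agent.H458.BM.Two
import Pool.Graph.R_pool_sql_team_seeded_63374d34.N874.Jac.Def
import Pool.Agent.H458.RN.Rel
import Pool.Graph.R_pool_sql_team_seeded_63374d34.N844.QR.Ex

/-!
# The middle cohomology of almost all pencils of quadrics: ranks and signs

Let `F` be ANY number field and `g ≥ 1`. We consider ALL polynomials
`f = x ^ (2 g + 1) + a_(2 g - 1) x ^ (2 g - 1) + ... + a_0` with coefficients in the ring of integers of `F`,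
ordered by the height: `|σ a_i| ≤ B ^ (2 g + 1 - i)` for all embeddings `σ : F → ℂ`. `C_f` is the curve `y ^ 2 = f(x)`
of genus `g`, `J_f` its Jacobian, and `J_f ^ d` the quadratic twist by `d`.

A smooth intersection of two quadrics `X ⊂ P ^ (2 g + 1)` of dimension `2 g - 1` over a number field `M ⊇ F` with a
rational singular member of its pencil is the base locus of a pencil `x A - z B` of symmetric matrices over the
integers of `M` with

  `(-1) ^ (g + 1) det (x A - z B) = m ^ 2 z F(x, z)`, `m ≠ 0`, `F(x, z)` the homogeneous form of some such `f`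

over `M` (after a change of coordinates), which we call a pencil of `f`. By Reid and Donagi
`H ^ (2 g - 1)(X, ℚ_l(g)) = V_l J_f` and `CH ^ g_hom(X) ⊗ ℚ = J_f(M) ⊗ ℚ`, so that the conjecture of Beilinson and Bloch
for `X` and `m = g` is `rank J_f(M) = ord_(s = 1) L(J_f / M, s)`. (These facts are not formalized here, but the number
of the points of `X` over the residue fields is computed; it determines the `L`-function up to finitely many factors.)
Of course `CH ^ 1_hom(C_f) = J_f(M)`.

For a natural number `R` and `f` let `C(f, R)` be the class of all the finite Galois extensions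
`M / F` of 2-power degree in which all the primes dividing `R` split completely, such that for every prime `v`
of `F` either `M / F` is unramified at `v` or `f` is irreducible modulo `v`, and such that for every real embedding
`σ` of `F` either a real embedding of `M` extends `σ` or `σ f` has exactly one real zero.

**Theorem.** Let `W ≥ 1`, let `𝒮` be a finite set of nonzero integers of `F` and `ε > 0`. There are a FINITE set
`𝒟` of squarefree natural numbers `D ≡ 1 mod 8 W`, with `1 ∈ 𝒟`, and a multiple `R` of `2 W` and of all `D ∈ 𝒟`, such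
that for all large `B` ALL the `f` of height at most `B`, with the exception of a proportion `ε` at most, have for
every `d ∈ 𝒮` a `D ∈ 𝒟` such that `J = J_f ^ (d D)` and `f' = twist f (d D)` have the following properties.

(1) For ALL `M ∈ C(f ^ d, R)` (`M = F` is one of them) multiplication by two is bijective on `J(M)`, and the
2-primary part of the Tate-Shafarevich group of `J` over `M` is zero. So `J(M)` is finite of odd order by
the theorem of Mordell and Weil: the ranks of `CH ^ 1_hom(C_(f'))` and, for ALL the pencils of `f'` over `M`, of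
`CH ^ g_hom(X)` are `0`.

(2) For all `M ∈ C(f ^ d, R)` such that `Gal(M / F)` is not cyclic the root number of `J` over `M` is `1`, the sign
of the functional equation expected for `L(J / M, s) = L(H ^ (2 g - 1)(X), s + g - 1)`:
`(-1) ^ (g r) ∏ w(J / M_v) = 1`, `r` the number of the infinite places of `M`. So the
order of vanishing at the central point which is expected from the functional equation is even, as the rank. We
prove this for every function `w` on the primes of `M` with three properties of the local root numbers: the values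
are signs, `w v = 1` if `v` does not divide `2` and the polynomial of the twist has no multiple zero modulo `v` (good
reduction), and `w` is invariant under `Gal(M / F)` (as `J` is defined over `F`).

(3) All the pencils of `f'` over the integers of `M` have smooth base locus (over all the fields in which `2 m` is not
zero and `f'` is separable), with the number of points over the finite fields which belongs to
`H ^ (2 g - 1)(X) = H ^ 1(C_(f'))(1 - g)`. For every `f'` there is such an `X` over `F` with `m = 1` which contains a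
linear subspace of dimension `g - 1`.

(4) If `y ^ 2 = f ^ d (x)` is regular at the primes over two (a condition on `f ^ d` modulo the squares of the primes
over two, which holds for all the polynomials in a residue class modulo `4`), then for every field `W / F`, finite or
infinite, which is a union of fields in `C(f ^ d, R)`, the ring `W[x, y] / (y ^ 2 - f')` is a principal ideal
domain, `J(W) = CH ^ 1_hom(C_(f')) = 0` over `W` (so the rank is zero without the theorem of Mordell and Weil), and the
curve has no point over `W` except `∞`.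

So the parity form of the conjecture of Beilinson and Bloch holds (rank `0`, sign `+1`), for a quadratic twist by one of
finitely many numbers, for the middle cohomology of ALMOST ALL the pencils of quadrics with a rational degenerate member,
of every odd dimension, over every number field, and over all the fields of an infinite class at the same time.

The same engine (project AG) is used in our `MP_1d384c_nt.AlmostAllJacobians` (Jacobians) and
`MP_787500_nt.AlmostAllPencils` (Bloch-Kato Selmer groups at `p = 2`). What was known: a positive proportion, with the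
trivial twist (library `MP_787500_nt.AllQuadricPencils` over `F`); for one generic `f` the existence of SOME
quadratic twist with trivial 2-Selmer group over `F` (Mazur-Rubin, Yu).

Proof. `f` is good at a prime number `q` (with a prime of degree one, `q ≡ 1 mod 8 W`) if `f` has exactly
one zero modulo one prime of degree one over `q`, its cofactor is irreducible there, and `f` is irreducible modulo the
other primes over `q`. For a set `S` of primes at which `f` is good, `f` has a twist as required by a product of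
primes in `S` if `f` is not in an exceptional set, and a theorem on the orbits of Bhargava and Gross (library and
helper459) and the number of points near the cusp bound the number of the exceptional `f` by `C 2 ^ (- # S)` of the
good ones, `C` independent of `S`. The new idea is to choose `S` depending on `f`: take `k` disjoint blocks of
primes such that the expected number of good primes in each block is large. All but few `f` have at least `9 / 10`
of this number of good primes in every block; if `f` is exceptional for ALL the transversals `S` of its good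
primes, then it is counted very often, and the number of these `f` is at most `C (5 / 9) ^ k` of all.
In this run the parts for genus `g` were proved by helpers 30, 47, 71, 80, 102, 118, 139, 152, 166, 231, 234, 236, 294,
295, 307, 322, 348, 372, 383, 650, 686 and 945. (2) is by counting the primes fixed by the Galois group; the pencils are
by `N844/QR/{Pen,Ex}.lean` of the library (helper844 of an earlier run).
-/

set_option autoImplicit false
set_option linter.all false

namespace Pool.Agent.Results.MP_b8021b_nt.AlmostAllPencils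

open Finset Matrix Polynomial Filter IsDedekindDomain NumberField
open scoped LinearAlgebra.Projectivization
open Pool.Agent.N874.Jac (J UniquelyTwoDivisible ShaTwoTrivialReal)
open scoped Classical

/-! ### The intersections of two quadrics -/

section pencils

variable {D : Type} [CommRing D]

/-- the homogeneous form `F(x, z)` of degree `2 g + 1` of `f` -/
def form (g : ℕ) (f : D[X]) (x z : D) : D :=
  ∑ i ∈ range (2 * g + 2), f.coeff i * x ^ i * z ^ (2 * g + 1 - i)

/-- the matrices of size `2 g + 2` over `D` -/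
abbrev Mat (g : ℕ) (D : Type) : Type := Matrix (Fin (2 * g + 2)) (Fin (2 * g + 2)) D

/-- the quadratic form of a matrix -/
def qf {N : ℕ} (A : Matrix (Fin N) (Fin N) D) (y : Fin N → D) : D := y ⬝ᵥ (A *ᵥ y)

/-- the pencils over `D` with discriminant `m ^ 2 z F(x, z)` -/
structure IsPencil (g : ℕ) (f : D[X]) (m : D) (A B : Mat g D) : Prop where
  symA : A.IsSymm
  symB : B.IsSymm
  disc : ∀ x z : D, (-1) ^ (g + 1) * (x • A - z • B).det = m ^ 2 * (z * form g f x z)

/-- the linear subspace `y_g = ... = y_(2 g + 1) = 0` of dimension `g - 1` is contained in the base locus -/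
def ContainsPlane {g : ℕ} (A B : Mat g D) : Prop :=
  ∀ y : Fin (2 * g + 2) → D, (∀ i : Fin (2 * g + 2), g ≤ (i : ℕ) → y i = 0) →
    qf A y = 0 ∧ qf B y = 0

end pencils

section fields

variable {E : Type} [Field E]

/-- the quadratic forms of `A` and `B` are zero at `y` -/
def OnX {N : ℕ} (A B : Matrix (Fin N) (Fin N) E) (y : Fin N → E) : Prop := qf A y = 0 ∧ qf B y = 0

/-- the base locus `X` of the pencil is smooth (Jacobian criterion at the points over `E`) -/
def Smooth {N : ℕ} (A B : Matrix (Fin N) (Fin N) E) : Prop :=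
  ∀ y : Fin N → E, y ≠ 0 → OnX A B y → LinearIndependent E ![A *ᵥ y, B *ᵥ y]

/-- the number of the points over `E` of the base locus `X` of the pencil -/
noncomputable def numP {N : ℕ} (A B : Matrix (Fin N) (Fin N) E) : ℕ :=
  Nat.card {P : ℙ E (Fin N → E) // OnX A B P.rep}

/-- the number of the points over `E` of the affine curve `y ^ 2 = F(x)` -/
noncomputable def numC (F : E[X]) : ℕ := Nat.card {P : E × E // P.2 ^ 2 = F.eval P.1}

/-- The number of points of `X` over the finite field `E`: `H ^ (2 g - 1) (X) = H ^ 1 (C) (1 - g)` where `C`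
is the curve `y ^ 2 = F(x)`, and the other cohomology is that of a projective space of dimension
`2 g - 1`. -/
def PointCount {g : ℕ} (F : E[X]) (A B : Mat g E) : Prop :=
  (numP A B : ℤ) = ∑ i ∈ range (2 * g), (Nat.card E : ℤ) ^ i +
    (Nat.card E : ℤ) ^ (g - 1) * ((numC F : ℤ) - Nat.card E)

end fields

/-- For all pencils over the ring `D` with discriminant `m ^ 2 z F(x, z)` the base locus is smooth over all the
fields `E` over `D` in which `2 m` is not zero and `f` is separable, and its number of points is given by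
`PointCount` if `E` is finite. -/
def AllPencils {D : Type} [CommRing D] (g : ℕ) (f : D[X]) : Prop :=
  ∀ (m : D) (A B : Mat g D), IsPencil g f m A B →
    ∀ (E : Type) [Field E] (φ : D →+* E), (2 : E) ≠ 0 → φ m ≠ 0 → (f.map φ).Separable →
      Smooth (A.map φ) (B.map φ) ∧ (Finite E → PointCount (f.map φ) (A.map φ) (B.map φ))

section defs

variable {F : Type} [Field F] [NumberField F]

/-- `f` is a monic polynomial of degree `2 g + 1` with integral coefficients, without term of degree
`2 g`, and of height at most `B`: all conjugates of the coefficient of degree `j` are at most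
`B ^ (2 g + 1 - j)` in absolute value. -/
structure IsPoly (g B : ℕ) (f : (𝓞 F)[X]) : Prop where
  monic : f.Monic
  degree : f.natDegree = 2 * g + 1
  trace : f.coeff (2 * g) = 0
  height : ∀ j ≤ 2 * g, ∀ σ : F →+* ℂ, ‖σ (f.coeff j : F)‖ ≤ (B : ℝ) ^ (2 * g + 1 - j)

variable (F) in
/-- The polynomials `f` of height at most `B`. -/
def Polys (g B : ℕ) : Set (𝓞 F)[X] := {f | IsPoly g B f}

/-- `f` is irreducible modulo `v`. -/
def IrreducibleMod (f : (𝓞 F)[X]) (v : HeightOneSpectrum (𝓞 F)) : Prop :=
  Irreducible (f.map (Ideal.Quotient.mk v.asIdeal))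

/-- `d ^ (2 g + 1) f(x / d)`: the coefficient of degree `j` is multiplied by `d ^ (2 g + 1 - j)`. The curve
`y ^ 2 = twist f d` is the quadratic twist by `d` of the curve `y ^ 2 = f(x)`. -/
noncomputable def twist (f : (𝓞 F)[X]) (d : 𝓞 F) : (𝓞 F)[X] := f.scaleRoots d

/-- `M / F` is unramified at `v`. -/
def Unramified (v : HeightOneSpectrum (𝓞 F)) (M : Type) [Field M] [NumberField M]
    [Algebra F M] : Prop :=
  ∀ w : HeightOneSpectrum (𝓞 M), v.asIdeal.map (algebraMap (𝓞 F) (𝓞 M)) ≤ w.asIdeal →
    ¬ v.asIdeal.map (algebraMap (𝓞 F) (𝓞 M)) ≤ w.asIdeal ^ 2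

/-- `v` splits completely in `M`: it is unramified and all integers of `M` are congruent to integers of
`F` modulo every prime over `v`. -/
def SplitsCompletely (v : HeightOneSpectrum (𝓞 F)) (M : Type) [Field M] [NumberField M]
    [Algebra F M] : Prop :=
  Unramified v M ∧
  ∀ w : HeightOneSpectrum (𝓞 M), v.asIdeal.map (algebraMap (𝓞 F) (𝓞 M)) ≤ w.asIdeal →
    ∀ y : 𝓞 M, ∃ c : 𝓞 F, y - algebraMap (𝓞 F) (𝓞 M) c ∈ w.asIdeal

/-- The extension `M / F` belongs to the class `C(f, R)` of the number `R` and the polynomial `f`. -/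
structure InClass (R : ℕ) (f : (𝓞 F)[X]) (M : Type) [Field M] [NumberField M] [Algebra F M] : Prop where
  galois : IsGalois F M
  degree : ∃ n : ℕ, Module.finrank F M = 2 ^ n
  split : ∀ v : HeightOneSpectrum (𝓞 F), (R : 𝓞 F) ∈ v.asIdeal → SplitsCompletely v M
  ramified : ∀ v : HeightOneSpectrum (𝓞 F), Unramified v M ∨ IrreducibleMod f v
  real : ∀ σ : F →+* ℝ, (∃ ρ : M →+* ℝ, ρ.comp (algebraMap F M) = σ) ∨
    ∃! e : ℝ, (f.map (σ.comp (algebraMap (𝓞 F) F))).eval e = 0

/-- The polynomial `f` over the extension `M` of `F`. -/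
noncomputable def overM (M : Type) [Field M] [Algebra F M] (f : (𝓞 F)[X]) : M[X] :=
  (f.map (algebraMap (𝓞 F) F)).map (algebraMap F M)

/-- Multiplication by two is bijective on `J(M)`, `J` the Jacobian of `y ^ 2 = P(x)`, and the 2-primary
part of the Tate-Shafarevich group of `J` over `M` is zero. -/
def NoTwoPart {M : Type} [Field M] [NumberField M] (P : M[X]) : Prop :=
  UniquelyTwoDivisible P ∧ ShaTwoTrivialReal P (𝓞 M)

/-- The properties of the local root numbers `w(J / M_v)` at the primes `v` of `M` which we use: they are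
signs, they are `1` if `v` does not divide `2` and `f` has no multiple zero modulo `v` (`J` has good
reduction), and they are the same for primes which are conjugate over `F`. -/
structure LocalRootNumbers (f : (𝓞 F)[X]) (M : Type) [Field M] [NumberField M] [Algebra F M]
    (w : HeightOneSpectrum (𝓞 M) → ℤ) : Prop where
  sign : ∀ v, w v = 1 ∨ w v = -1
  good : ∀ v : HeightOneSpectrum (𝓞 M), (2 : 𝓞 M) ∉ v.asIdeal →
    ((f.map (algebraMap (𝓞 F) (𝓞 M))).map (Ideal.Quotient.mk v.asIdeal)).Separable → w v = 1
  conj : ∀ (σ : M ≃ₐ[F] M) (v v' : HeightOneSpectrum (𝓞 M)),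
    (∀ x : M, v'.valuation M x = v.valuation M (σ x)) → w v' = w v

/-- The global root number of an abelian variety of dimension `g`: the product of the local root numbers
at the primes and of `(-1) ^ g` for every infinite place. -/
noncomputable def rootNumber (g : ℕ) (M : Type) [Field M] [NumberField M]
    (w : HeightOneSpectrum (𝓞 M) → ℤ) : ℤ :=
  ((-1) ^ g) ^ Nat.card (InfinitePlace M) * ∏ᶠ v, w v

/-- `W / F` is a (finite or infinite) union of fields in the class: every finite subset of `W` is in the image of a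
field `M` of the class. -/
def IsUnion (R : ℕ) (f : (𝓞 F)[X]) (W : Type) [Field W] [Algebra F W] : Prop :=
  ∀ s : Finset W, ∃ (M : Type) (_ : Field M) (_ : NumberField M) (_ : Algebra F M) (φ : M →ₐ[F] W),
    InClass R f M ∧ ∀ x ∈ s, x ∈ Set.range φ

/-- `y ^ 2 = f(x)` is regular at the points over all the primes `v` over two: `f` is congruent to
`E ^ 2 + x G ^ 2 + π r` modulo `v ^ 2`, where `π` is a uniformizer and `r` and `G` are coprime modulo `v`. -/
def RegularAtTwo (f : (𝓞 F)[X]) : Prop :=
  ∀ v : HeightOneSpectrum (𝓞 F), (2 : 𝓞 F) ∈ v.asIdeal →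
    ∃ (π : 𝓞 F) (E G r a b : (𝓞 F)[X]), π ∈ v.asIdeal ∧ π ∉ v.asIdeal ^ 2 ∧
      (∀ j, (f - (E ^ 2 + X * G ^ 2 + C π * r)).coeff j ∈ v.asIdeal ^ 2) ∧
      ∀ j, (a * r + b * G - 1).coeff j ∈ v.asIdeal

/-- The Jacobian of `y ^ 2 = P(x)` has no point except zero over `M`: the coordinate ring
`M[x, y] / (y ^ 2 - P(x))` is a principal ideal domain and `J(M)`, its Picard group, is zero. The
curve has no point except the point at infinity. -/
structure NoPoints {M : Type} [Field M] (P : M[X]) : Prop where
  domain : IsDomain (AdjoinRoot (X ^ 2 - C P : M[X][X]))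
  principal : IsPrincipalIdealRing (AdjoinRoot (X ^ 2 - C P : M[X][X]))
  jacobian : Subsingleton (J P M)
  curve : ∀ x y : M, y ^ 2 ≠ P.eval x

/-- The polynomial `f` over the ring of integers of the extension `M` of `F`. -/
noncomputable def overInt (M : Type) [Field M] [Algebra F M] (f : (𝓞 F)[X]) : (𝓞 M)[X] :=
  f.map (algebraMap (𝓞 F) (𝓞 M))

/-- The properties of the twist of `f` by `c` in the theorem, over all the fields `M` in the class of `f₀`. -/
structure Good (g R : ℕ) (f₀ f : (𝓞 F)[X]) (c : 𝓞 F) : Prop where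
  rank : ∀ (M : Type) [Field M] [NumberField M] [Algebra F M], InClass R f₀ M →
    NoTwoPart (overM M (twist f c))
  pencils : ∀ (M : Type) [Field M] [NumberField M] [Algebra F M], InClass R f₀ M →
    AllPencils g (overInt M (twist f c))
  trivial : RegularAtTwo f₀ → ∀ (W : Type) [Field W] [Algebra F W], IsUnion R f₀ W →
    NoPoints (overM W (twist f c))
  root : ∀ (M : Type) [Field M] [NumberField M] [Algebra F M], InClass R f₀ M →
    ¬ IsCyclic (M ≃ₐ[F] M) → ∀ w : HeightOneSpectrum (𝓞 M) → ℤ, LocalRootNumbers (twist f c) M w →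
    {v | w v ≠ 1}.Finite ∧ rootNumber g M w = 1

end defs

section pf

variable {F : Type} [Field F] [NumberField F]

open Pool.Agent.H458.RN
open Pool.Agent.H459.UF (Unr Deg1 below exists_above)

theorem sep_up {M : Type} [Field M] [NumberField M] [Algebra F M] {f : (𝓞 F)[X]}
    {u : HeightOneSpectrum (𝓞 F)} {v : HeightOneSpectrum (𝓞 M)}
    (hl : u.asIdeal.map (algebraMap (𝓞 F) (𝓞 M)) ≤ v.asIdeal) (h : IrreducibleMod f u) :
    ((f.map (algebraMap (𝓞 F) (𝓞 M))).map (Ideal.Quotient.mk v.asIdeal)).Separable := by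
  haveI : u.asIdeal.IsMaximal := u.isMaximal
  letI : Field (𝓞 F ⧸ u.asIdeal) := Ideal.Quotient.field u.asIdeal
  haveI : Finite (𝓞 F ⧸ u.asIdeal) := inferInstance
  have h1 : (f.map (Ideal.Quotient.mk u.asIdeal)).Separable :=
    PerfectField.separable_of_irreducible h
  let φ : (𝓞 F ⧸ u.asIdeal) →+* (𝓞 M ⧸ v.asIdeal) :=
    Ideal.Quotient.lift u.asIdeal ((Ideal.Quotient.mk v.asIdeal).comp (algebraMap (𝓞 F) (𝓞 M)))
      (fun a ha => by
        rw [RingHom.comp_apply, Ideal.Quotient.eq_zero_iff_mem]
        exact hl (Ideal.mem_map_of_mem _ ha))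
  have h2 := h1.map (f := φ)
  rw [Polynomial.map_map] at h2
  rw [Polynomial.map_map]
  exact h2

theorem root_one {g R : ℕ} {f₀ f : (𝓞 F)[X]} (h2R : 2 ∣ R)
    (hred : ∀ u : HeightOneSpectrum (𝓞 F), (R : 𝓞 F) ∉ u.asIdeal → IrreducibleMod f₀ u →
      IrreducibleMod f u)
    (hm : f.Monic) (hd : f.natDegree = 2 * g + 1)
    (hirr : Irreducible (f.map (algebraMap (𝓞 F) F)))
    (M : Type) [Field M] [NumberField M] [Algebra F M] (hM : InClass R f₀ M)
    (hnc : ¬ IsCyclic (M ≃ₐ[F] M)) (w : HeightOneSpectrum (𝓞 M) → ℤ)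
    (hw : LocalRootNumbers f M w) : {v | w v ≠ 1}.Finite ∧ rootNumber g M w = 1 := by
  haveI := hM.galois
  obtain ⟨n, hn⟩ := hM.degree
  haveI : FiniteDimensional F M := Module.finite_of_finrank_pos (by rw [hn]; positivity)
  have hcardG : Nat.card (M ≃ₐ[F] M) = 2 ^ n := by
    rw [IsGalois.card_aut_eq_finrank, hn]
  -- the degree is at least four
  have hn2 : 2 ≤ n := by
    by_contra hlt
    apply hnc
    haveI : Fact (Nat.Prime 2) := ⟨Nat.prime_two⟩
    obtain rfl | rfl : n = 0 ∨ n = 1 := by omega
    · rw [pow_zero, Nat.card_eq_one_iff_unique] at hcardG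
      haveI := hcardG.1
      exact isCyclic_of_subsingleton
    · rw [pow_one] at hcardG
      exact isCyclic_of_prime_card hcardG
  have hfin : {v | w v ≠ 1}.Finite := by
    refine (bad_finite (P := f.map (algebraMap (𝓞 F) (𝓞 M))) ?_ ?_).subset ?_
    · rw [hm.natDegree_map, hd]
      omega
    · rw [Polynomial.map_map]
      have h1 := hirr.separable.map (f := algebraMap F M)
      rw [Polynomial.map_map] at h1
      have e : (algebraMap (𝓞 M) M).comp (algebraMap (𝓞 F) (𝓞 M)) =
          (algebraMap F M).comp (algebraMap (𝓞 F) F) := rfl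
      rw [e]
      exact h1
    · intro v hv
      rw [Set.mem_setOf_eq]
      by_contra h
      rw [not_or, not_not] at h
      exact hv (hw.good v h.1 h.2)
  refine ⟨hfin, ?_⟩
  have hprod := prod_eq F hn w hw.sign hfin hw.conj
  have hempty : {v | w v = -1 ∧ Fixed F v} = ∅ := by
    rw [Set.eq_empty_iff_forall_notMem]
    rintro v ⟨hv1, hv2⟩
    obtain ⟨u, hu⟩ := Pool.Agent.N874.TF.exists_bel F v
    haveI hl : v.asIdeal.LiesOver u.asIdeal := ⟨by
      ext y
      rw [Ideal.mem_comap]
      exact hu y⟩
    have hle : u.asIdeal.map (algebraMap (𝓞 F) (𝓞 M)) ≤ v.asIdeal := by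
      rw [Ideal.map_le_iff_le_comap]
      intro y hy
      exact (hu y).1 hy
    -- an unramified prime
    have hunr : ∀ h : Unramified u M, False := by
      intro h
      apply hnc
      refine cyclic_of_fixed (u := u) (v := v) ?_ hv2
      exact Ideal.ramificationIdx'_spec (by rw [pow_one]; exact hle) (h v hle)
    by_cases hR : (R : 𝓞 F) ∈ u.asIdeal
    · exact hunr (hM.split u hR).1
    rcases hM.ramified u with h | h
    · exact hunr h
    · have h3 : (2 : 𝓞 M) ∉ v.asIdeal := by
        intro h4
        apply hR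
        obtain ⟨m, hm'⟩ := h2R
        rw [hm', Nat.cast_mul]
        refine Ideal.mul_mem_right _ _ ?_
        rw [hu, Nat.cast_ofNat, map_ofNat]
        exact h4
      rw [hw.good v h3 (sep_up hle (hred u hR h))] at hv1
      norm_num at hv1
  rw [rootNumber, hprod, hempty, Set.ncard_empty, pow_zero, mul_one, ← pow_mul]
  exact ((even_infinite (F := F) hn hn2).mul_left g).neg_one_pow

theorem cls_of {M : Type} [Field M] [NumberField M] [Algebra F M] {R : ℕ} {f : (𝓞 F)[X]}
    (h : InClass R f M) : Pool.Agent.H458.AG.ClsM F M R f where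
  spl := fun v hv => ⟨Pool.Agent.H458.AG.Gen.unr_of (h.split v hv).1, (h.split v hv).2⟩
  unr := fun v => (h.ramified v).imp Pool.Agent.H458.AG.Gen.unr_of id
  real := fun σ => (h.real σ).imp id fun h' => by
    unfold Pool.Agent.N783.PF.fF
    rw [Polynomial.map_map]
    exact h'

/-- `M = F` belongs to all the classes. -/
theorem self_mem (R : ℕ) (f : (𝓞 F)[X]) : InClass R f F := by
  have h2 := Pool.Agent.H458.AG.Gen.cls_base (F := F) R f
  exact ⟨inferInstance, ⟨0, by rw [Module.finrank_self, pow_zero]⟩,
    fun v hv => ⟨Pool.Agent.H458.AG.Gen.of_unr (h2.spl v hv).1, (h2.spl v hv).2⟩,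
    fun v => Or.inl (Pool.Agent.H458.AG.Gen.of_unr (Pool.Agent.H458.AU.unr_self v)),
    fun σ => Or.inl ⟨σ, by
    ext x
    rfl⟩⟩

/-- The embedding in the completion at a prime which splits completely. -/
theorem embed {M : Type} [Field M] [NumberField M] [Algebra F M] {v : HeightOneSpectrum (𝓞 F)}
    (h : SplitsCompletely v M) : Nonempty (M →ₐ[F] v.adicCompletion F) := by
  obtain ⟨w, hw⟩ := exists_above (K := F) M v
  subst hw
  obtain ⟨j, hj⟩ := Pool.Agent.H459.UF.cpl_surj (Pool.Agent.H459.UF.dns_of_deg1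
    (K := F) (P := w) (Pool.Agent.H458.AG.Gen.unr_of h.1) h.2)
  refine ⟨{ (j.comp (algebraMap M (w.adicCompletion M))) with commutes' := fun r => hj r }⟩

/-- Regularity is the same for the twist by `D ≡ 1 mod 8`. -/
theorem reg_twist {f : (𝓞 F)[X]} {D W : ℕ} (hD : D ≡ 1 [MOD 8 * W]) (hf : RegularAtTwo f)
    (v : HeightOneSpectrum (𝓞 F)) (hv : (2 : 𝓞 F) ∈ v.asIdeal) :
    Pool.Agent.H458.PD.RegAt v (f.scaleRoots (D : 𝓞 F)) := by
  have h0 : Pool.Agent.H458.PD.RegAt v f := hf v hv
  refine h0.congr fun j => ?_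
  rw [coeff_scaleRoots]
  have h8 : D ≡ 1 [MOD 8] := hD.of_dvd (dvd_mul_right 8 W)
  have h9 : D ^ (f.natDegree - j) ≡ 1 [MOD 8] := by
    have := h8.pow (f.natDegree - j)
    rwa [one_pow] at this
  obtain ⟨k, hk⟩ : (8 : ℤ) ∣ ((D ^ (f.natDegree - j) : ℕ) : ℤ) - 1 := by
    have := (Nat.modEq_iff_dvd.1 h9.symm)
    exact_mod_cast this
  have e1 : (D : 𝓞 F) ^ (f.natDegree - j) = 8 * (k : 𝓞 F) + 1 := by
    have h10 : (((D ^ (f.natDegree - j) : ℕ) : ℤ) : 𝓞 F) = ((8 * k + 1 : ℤ) : 𝓞 F) := by
      rw [← hk]
      ring_nf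
    push_cast at h10
    exact h10
  have e2 : f.coeff j * (D : 𝓞 F) ^ (f.natDegree - j) - f.coeff j = (2 * 2) * (2 * (k : 𝓞 F) * f.coeff j) := by
    rw [e1]
    ring
  rw [e2, pow_two]
  exact Ideal.mul_mem_right _ _ (Ideal.mul_mem_mul hv hv)

theorem pid_of {g R : ℕ} (h2R : 2 ∣ R) {f₀ f : (𝓞 F)[X]}
    (hm : f.Monic) (hd : f.natDegree = 2 * g + 1) (h2 : Irreducible (Pool.Agent.N783.PF.fF f))
    (hR : ∀ v : HeightOneSpectrum (𝓞 F), (2 : 𝓞 F) ∈ v.asIdeal → Pool.Agent.H458.PD.RegAt v f)
    (M : Type) [Field M] [NumberField M] [Algebra F M] (hM : InClass R f₀ M)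
    (hdiv : Pool.Agent.N874.Jac.UniquelyTwoDivisible (overM M f)) :
    IsPrincipalIdealRing (Pool.Agent.Y160.SE.CR 2 (overM M f)) := by
  obtain ⟨v, hv⟩ := Pool.Agent.H458.PD.exists_two F
  have hR0 : (R : 𝓞 F) ∈ v.asIdeal := by
    obtain ⟨m, hm⟩ := h2R
    rw [hm, Nat.cast_mul]
    exact Ideal.mul_mem_right _ _ (by exact_mod_cast hv)
  obtain ⟨σ⟩ := embed (hM.split v hR0)
  have h3 := (Pool.Agent.H458.PD.glo_ring σ hv (hR v hv) hm hd h2.separable (P := overM M f) rfl
    hdiv).2.1
  have hid : (overM M f).map (algebraMap M M) = overM M f := Polynomial.map_id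
  have h4 : IsPrincipalIdealRing (Pool.Agent.Y160.SE.CR 2 ((overM M f).map (algebraMap M M))) := h3
  rwa [hid] at h4

theorem noPoints_of {g : ℕ} (hg : 1 ≤ g) {R : ℕ} {f₀ f : (𝓞 F)[X]}
    (hm : f.Monic) (hd : f.natDegree = 2 * g + 1)
    (hpid : ∀ (M : Type) [Field M] [NumberField M] [Algebra F M], InClass R f₀ M →
      IsPrincipalIdealRing (Pool.Agent.Y160.SE.CR 2 (overM M f)))
    (W : Type) [Field W] [Algebra F W] (hW : IsUnion R f₀ W) : NoPoints (overM W f) := by
  have hd' : (overM W f).natDegree = 2 * g + 1 := by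
    unfold overM
    rw [(hm.map _).natDegree_map, hm.natDegree_map, hd]
  have hodd : Odd (overM W f).natDegree := by rw [hd']; exact odd_two_mul_add_one g
  have key : IsPrincipalIdealRing (Pool.Agent.Y160.SE.CR 2 (overM W f)) := by
    apply Pool.Agent.H458.PD.union_pid
    intro s
    obtain ⟨M, i1, i2, i3, φ, hM, hs⟩ := hW s
    refine ⟨M, i1, (φ : M →+* W), overM M f, ?_, hs, hpid M hM⟩
    unfold overM
    rw [Polynomial.map_map]
    congr 1
    exact φ.comp_algebraMap
  have hdom : IsDomain (Pool.Agent.Y160.SE.CR 2 (overM W f)) := Pool.Agent.H458.PD.cr_domain hodd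
  have hid : (overM W f).map (algebraMap W W) = overM W f := Polynomial.map_id
  refine ⟨hdom, key, ?_, ?_⟩
  · have h5 : Subsingleton (CommRing.Pic
        (Pool.Agent.Y160.SE.CR 2 ((overM W f).map (algebraMap W W)))) := by
      rw [hid]
      haveI := key
      haveI := hdom
      have h5 : Subsingleton (ClassGroup (Pool.Agent.Y160.SE.CR 2 (overM W f))) :=
        Fintype.card_le_one_iff_subsingleton.1
          (card_classGroup_eq_one (R := Pool.Agent.Y160.SE.CR 2 (overM W f))).le
      exact (ClassGroup.equivPic (Pool.Agent.Y160.SE.CR 2 (overM W f))).symm.toEquiv.subsingleton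
    exact h5
  · intro x y
    exact Pool.Agent.H458.PD.no_points hodd (by rw [hd']; omega) key x y

theorem allPencils_of (L : Type) [Field L] [NumberField L] {g : ℕ} (hg : 1 ≤ g) {f : (𝓞 L)[X]}
    (hf : f.Monic) (hd : f.natDegree = 2 * g + 1) : AllPencils g f := by
  haveI : Infinite (𝓞 L) := CharZero.infinite _
  intro m A B h E _ φ hE hm hs
  have h' : Pool.Agent.N844.QR.IsPen g f m A B := ⟨h.symA, h.symB, h.disc⟩
  exact ⟨fun y hy h6 => h'.smooth φ hf hd hm hs hy h6.1 h6.2,
    fun _ => h'.num hg hf hd E φ hE hm hs⟩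

theorem plane_of {g : ℕ} {f : (𝓞 F)[X]} (hf : f.Monic) (hd : f.natDegree = 2 * g + 1) :
    ∃ A B : Mat g (𝓞 F), IsPencil g f 1 A B ∧ ContainsPlane A B := by
  haveI : Infinite (𝓞 F) := CharZero.infinite _
  have h' := Pool.Agent.N844.QR.ex_pen hf hd
  refine ⟨Pool.Agent.N844.QR.eA hf hd, Pool.Agent.N844.QR.eB hf hd,
    ⟨h'.symA, h'.symB, h'.disc⟩, fun y hy => ?_⟩
  have key : ∀ A : Mat g (𝓞 F),
      (∀ i j : Fin (2 * g + 2), (i : ℕ) < g → (j : ℕ) < g → A i j = 0) → qf A y = 0 := by
    intro A hA
    unfold qf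
    simp only [dotProduct, mulVec]
    refine Finset.sum_eq_zero fun i _ => ?_
    rcases Nat.lt_or_ge (i : ℕ) g with hi | hi
    · rw [Finset.sum_eq_zero, mul_zero]
      intro j _
      rcases Nat.lt_or_ge (j : ℕ) g with hj | hj
      · rw [hA i j hi hj, zero_mul]
      · rw [hy j hj, mul_zero]
    · rw [hy i hi, zero_mul]
  exact ⟨key _ fun i j hi hj => (Pool.Agent.N844.QR.e_zero hf hd i j hi hj).1,
    key _ fun i j hi hj => (Pool.Agent.N844.QR.e_zero hf hd i j hi hj).2⟩

theorem good_of {g R W : ℕ} (hg : 1 ≤ g) {𝒟 : Finset ℕ} {𝒮 : Finset (𝓞 F)} (h2R : 2 ∣ R)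
    (h𝒮 : ∀ d ∈ 𝒮, d ≠ 0) (hD0 : ∀ D ∈ 𝒟, Squarefree D ∧ D ≡ 1 [MOD 8 * W] ∧ D ∣ R) {f : (𝓞 F)[X]}
    (hf : f ∈ Pool.Agent.H458.AG.Gen.VV F g R 𝒟 𝒮) {d : 𝓞 F} (hd : d ∈ 𝒮) :
    ∃ D ∈ 𝒟, Good g R (twist f d) f (d * (D : 𝓞 F)) := by
  obtain ⟨D, hD, hm, hdeg, hirr, h⟩ := Pool.Agent.H458.AG.Gen.triv_of h𝒮 (fun D hD => (hD0 D hD).1) hf hd
  have hsel : ∀ (M : Type) [Field M] [NumberField M] [Algebra F M], InClass R (twist f d) M →
      NoTwoPart (overM M (twist f (d * (D : 𝓞 F)))) := by
    intro M _ _ _ hM
    haveI := hM.galois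
    obtain ⟨n, hn⟩ := hM.degree
    exact h M n hn (cls_of hM)
  refine ⟨D, hD, hsel, ?_, ?_, ?_⟩
  · intro M _ _ _ hM
    refine allPencils_of M hg (hm.map _) ?_
    unfold overInt twist
    rw [hm.natDegree_map, hdeg]
  · intro hreg W' _ _ hW'
    refine noPoints_of hg hm hdeg (f₀ := twist f d) (fun M _ _ _ hM => ?_) W' hW'
    refine pid_of h2R hm hdeg hirr (fun v hv => ?_) M hM (hsel M hM).1
    have h3 := reg_twist (hD0 D hD).2.1 hreg v hv
    unfold twist at h3
    rwa [← scaleRoots_mul] at h3
  · intro M _ _ _ hM hnc w hw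
    refine root_one h2R (fun u hu hi => ?_) hm hdeg hirr M hM hnc w hw
    have hDu : (D : 𝓞 F) ∉ u.asIdeal := by
      intro h3
      apply hu
      obtain ⟨m, hm'⟩ := (hD0 D hD).2.2
      rw [hm', Nat.cast_mul]
      exact Ideal.mul_mem_right _ _ h3
    have h4 := Pool.Agent.H458.AG.rd_scale hDu (f := f.scaleRoots d) ((monic_scaleRoots_iff _).2 hf.1) hi
    rw [← scaleRoots_mul] at h4
    exact h4

end pf

/-- **Almost all pencils of quadrics over every number field after a bounded twist: rank zero and sign one.**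
For every number field `F`, every `g ≥ 1`, `W ≥ 1`, every finite set `𝒮` of nonzero integers of `F` and
`ε > 0` there are a finite set `𝒟` of squarefree natural numbers `D ≡ 1 mod 8 W` and a multiple `R` of `2 W` and of
all `D ∈ 𝒟` such that for all large `B` at least `(1 - ε)` times the number of ALL the `f` of height at most `B`
have for every `d ∈ 𝒮` a `D ∈ 𝒟` with the following property, `J` the Jacobian of the twist of
`y ^ 2 = f(x)` by `d D`: for ALL the extensions `M / F` in the class `C(f ^ d, R)` (among them `F`) multiplication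
by two is bijective on `J(M)`, the 2-primary part of the Tate-Shafarevich group of `J` over `M` is zero, all the pencils
of quadrics over the integers of `M` with discriminant `m ^ 2 z F'(x, z)` have smooth base locus (and the expected number
of points over the finite fields in which `2 m` is not zero and `f'` is separable); if
`Gal(M / F)` is not cyclic, the root number of `J` over `M` is `1`; and if `y ^ 2 = f ^ d (x)` is regular at the primes
over two (this is so for all `f ^ d` in a residue class modulo `4`), then `J(W) = 0` for all the (finite or infinite)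
unions `W` of fields in the class. Every `f` has a pencil over the integers of `F` with `m = 1` which contains a linear
subspace of dimension `g - 1`. -/
theorem result (F : Type) [Field F] [NumberField F] (g : ℕ) (hg : 1 ≤ g) (W : ℕ) (hW : 0 < W)
    (𝒮 : Finset (𝓞 F)) (h𝒮 : ∀ d ∈ 𝒮, d ≠ 0) (ε : ℝ) (hε : 0 < ε) :
    (∀ B : ℕ, (Polys F g B).Finite) ∧
    (∀ f : (𝓞 F)[X], f.Monic → f.natDegree = 2 * g + 1 →
      ∃ A B : Mat g (𝓞 F), IsPencil g f 1 A B ∧ ContainsPlane A B) ∧
    (∃ f₂ : (𝓞 F)[X], (f₂.Monic ∧ f₂.natDegree = 2 * g + 1 ∧ f₂.coeff (2 * g) = 0) ∧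
      ∀ f : (𝓞 F)[X], (∀ j, (4 : 𝓞 F) ∣ f.coeff j - f₂.coeff j) → RegularAtTwo f) ∧
    ∃ (R : ℕ) (𝒟 : Finset ℕ), 0 < R ∧ 2 * W ∣ R ∧ 1 ∈ 𝒟 ∧
      (∀ D ∈ 𝒟, Squarefree D ∧ D ≡ 1 [MOD 8 * W] ∧ D ∣ R) ∧
      (∀ f : (𝓞 F)[X], InClass R f F) ∧
      ∀ᶠ B : ℕ in atTop, 0 < (Polys F g B).ncard ∧
        (1 - ε) * ((Polys F g B).ncard : ℝ) ≤ ({f ∈ Polys F g B | ∀ d ∈ 𝒮, ∃ D ∈ 𝒟,
          Good g R (twist f d) f (d * (D : 𝓞 F))}.ncard : ℝ) := by
  have heq : ∀ B, Polys F g B = {f : (𝓞 F)[X] | Pool.Agent.N783.PF.Ht g B f} := by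
    intro B
    ext f
    exact ⟨fun h => ⟨h.monic, h.degree, h.trace, fun j hj σ => h.height j hj σ⟩,
      fun h => ⟨h.mon, h.deg, h.tr, fun j hj σ => h.ht j hj σ⟩⟩
  obtain ⟨hfin, R, 𝒟, hR, hWR, h1, hD, hX⟩ := Pool.Agent.H458.AG.Gen.part F W hW 𝒮 h𝒮 ε hε g hg
  have hfin' : ∀ B : ℕ, (Polys F g B).Finite := fun B => by
    rw [heq]
    exact hfin B
  obtain ⟨f₂, hf₂m, hf₂d, hf₂t, hf₂i, hf₂r⟩ := Pool.Agent.H458.BM.ex5 F g hg
  refine ⟨hfin', fun f hm hd => plane_of hm hd, ⟨f₂, ⟨hf₂m, hf₂d, hf₂t⟩, fun f hf v hv => ?_⟩, R, 𝒟, hR,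
    hWR, h1, hD, self_mem R, ?_⟩
  · have h5 : Pool.Agent.H458.PD.RegAt v f := by
      refine (hf₂r v hv).congr fun j => ?_
      obtain ⟨c, hc⟩ := hf j
      rw [hc, show (4 : 𝓞 F) = 2 * 2 by norm_num, pow_two]
      exact Ideal.mul_mem_right _ _ (Ideal.mul_mem_mul hv hv)
    exact h5
  filter_upwards [hX] with B hB
  obtain ⟨h2, h3⟩ := hB
  rw [← heq] at h2 h3
  refine ⟨h2, h3.trans ?_⟩
  have h4 := Set.ncard_le_ncard (s := Pool.Agent.H458.AG.Gen.VV F g R 𝒟 𝒮 ∩ Polys F g B)
    (t := {f ∈ Polys F g B | ∀ d ∈ 𝒮, ∃ D ∈ 𝒟, Good g R (twist f d) f (d * (D : 𝓞 F))})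
    (fun f hf => ⟨hf.2, fun d hd => good_of hg (dvd_of_mul_right_dvd hWR) h𝒮 hD hf.1 hd⟩)
    ((hfin' B).subset fun f hf => hf.1)
  exact_mod_cast h4

end Pool.Agent.Results.MP_b8021b_nt.AlmostAllPencils
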