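import Pool.Agent.H876.Cyc.Gens

/-!
# Finite generation of Chow groups and configurations of points on four lines

Part (i) of the conjecture of Beilinson and Bloch is the finite generation of the Chow groups of
smooth projective varieties over number fields. For a scheme `X` we denote by `CH X i` the cokernel
of the divisor map `⊕_{dim x = i+1} k(x)^× → ⊕_{dim y = i} ℤ`, defined with the lengths of the
quotients of the one-dimensional local rings; the dimension of a point of a variety over a number field
is the transcendence degree of its residue field.

Fix the four points `(1 : 0 : 0)`, `(0 : 1 : 0)`, `(0 : 0 : 1)`, `(1 : 1 : 1)` of the projective plane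
over `ℚ` and the four lines `y = 0`, `y = z`, `z = 0`, `x = 0`. A datum consists of the numbers of the
lines of `N` further points and of a set of triples of the `N + 4` points; the space of the
configurations with this datum is the affine variety over `ℚ` of all positions of the `N` points on
their lines for which the collinear triples are exactly the given ones.

We show that every scheme `X` of finite type over a number field (for example, a smooth projective
variety) is the disjoint union of finitely many locally closed subschemes which are smooth
integral spaces of configurations of pairwise distinct points, of dimension at most `dim X`, such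
that the number of generators of `CH X i` is at most the sum of the numbers of generators of their
groups. So the Chow groups of cycles of dimension `i` of all schemes of dimension at most `n` over all
number fields are finitely generated if and only if this is true for the smooth integral spaces
of configurations of dimension at most `n`.
-/

set_option autoImplicit false

open CategoryTheory AlgebraicGeometry TopologicalSpace Pool.Agent.Y116.UV Pool.Agent.Z125.UN
  Pool.Agent.Q193.LT Pool.Agent.H876.PL Pool.Agent.H876.Cyc

namespace Pool.Agent.Results.MP_b8021b_nt.ConfigurationSpaces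

/-- The datum of a space of configurations: there are `N` variable points besides the four points of
the frame, the point `i` is on the line number `line i`, and `coll` is the set of the collinear
triples. -/
structure Datum where
  N : ℕ
  line : Fin N → Fin 4
  coll : Finset (Lab 0 (Fin N) × Lab 0 (Fin N) × Lab 0 (Fin N))

/-- The ring of functions on the space of configurations, over the rational numbers. -/
abbrev Datum.ring (d : Datum) : Type := ConfRing (![] : Fin 0 → ℚ) d.line d.coll

/-- The space of configurations. -/
noncomputable abbrev Datum.space (d : Datum) : Scheme.{0} := Spec (CommRingCat.of d.ring)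

/-- The points of the configurations are pairwise distinct, and their space is integral and smooth. -/
structure Datum.IsFine (d : Datum) : Prop where
  distinct : Distinct d.coll
  domain : IsDomain d.ring
  smooth : Algebra.Smooth ℚ d.ring

/-- `X` is a scheme of finite type over the field `k`. -/
def IsVariety (k : Type) [Field k] (X : Scheme.{0}) : Prop :=
  ∃ f : X ⟶ Spec (CommRingCat.of k), LocallyOfFiniteType f ∧ QuasiCompact f

/-- The Chow group of the cycles of dimension `i` on a variety `X` over a field of characteristic zero. -/
abbrev CH (X : Scheme.{0}) (i : ℕ) : Type := ChowGroup X (i + 1)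

/-- The class `Q` of schemes contains the locally closed subschemes of its members. -/
def Hereditary (Q : Scheme.{0} → Prop) : Prop :=
  ∀ (Y X : Scheme.{0}) (f : Y ⟶ X), IsImmersion f → Q X → Q Y

/-- `X` is the disjoint union of the locally closed subschemes `g k`, which are spaces of
configurations in the class `Q`; the numbers of generators. -/
structure Decomposition (i : ℕ) (Q : Scheme.{0} → Prop) (X : Scheme.{0}) {ι : Type}
    [Fintype ι] (d : ι → Datum) (g : ∀ k, (d k).space ⟶ X) : Prop where
  fine : ∀ k, (d k).IsFine
  mem : ∀ k, Q (d k).space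
  immersion : ∀ k, IsImmersion (g k)
  partition : ∀ x : X, ∃! k, x ∈ Set.range (g k)
  generators : ∀ n : ι → ℕ, (∀ k, GenBy (CH (d k).space i) (n k)) → GenBy (CH X i) (∑ k, n k)

/-- the family of the spaces of configurations -/
def Fam (Q : Scheme.{0} → Prop) (C : Sch ℚ) : Prop :=
  ∃ d : Datum, d.IsFine ∧ Q d.space ∧ C = aff ℚ d.ring

lemma frac_rat : Frac ℚ := fun r =>
  ⟨r.den, r.num, by simp, by
    have := Rat.den_mul_eq_num r
    push_cast
    exact this.symm⟩

lemma fine_of {d : Datum} (h1 : Distinct d.coll) (h2 : IsDomain d.ring)
    (h3 : Algebra.Smooth ℚ d.ring) : d.IsFine := ⟨h1, h2, h3⟩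

lemma hered_of {Q : Scheme.{0} → Prop} (hQ : Hereditary Q) : Hered fun X : Sch ℚ => Q X.left where
  iso {X Y} e h := by
    obtain ⟨e⟩ := e
    have hi : IsIso e.inv.left := inferInstanceAs (IsIso ((Over.forget _).mapIso e).inv)
    exact hQ _ _ e.inv.left inferInstance h
  closed {Z X} i hi h := hQ _ _ i.left inferInstance h
  opened {U X} j hj h := hQ _ _ j.left inferInstance h

lemma ft_datum (d : Datum) : FT False (aff ℚ d.ring) :=
  have := ft_ring (![] : Fin 0 → ℚ) d.line d.coll
  ft_aff False

theorem decomposition (i : ℕ) {Q : Scheme.{0} → Prop} (hQ : Hereditary Q) (X : Scheme.{0})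
    (hX : IsVariety ℚ X) (hXQ : Q X) :
    ∃ (ι : Type) (_ : Fintype ι) (d : ι → Datum) (g : ∀ k, (d k).space ⟶ X),
      Decomposition i Q X d g := by
  obtain ⟨f, h1, h2⟩ := hX
  have hI := additive_gens (R := ℚ) (i + 1)
  have hft : FT False (Over.mk f : Sch ℚ) := ⟨h1, h2, fun h => h.elim⟩
  have key : StrataI (Fam Q) (fun (X : Sch ℚ) n =>
      0 ≤ n ∧ GenBy (ChowGroup X.left (i + 1)) n.toNat) (Over.mk f) := by
    refine perf_prime frac_rat (glue_strI (Fam Q) hI) (hered_of hQ)
      (confFam_of_ring (glue_strI (Fam Q) hI) (hered_of hQ) generic_smooth ?_) ?_ _ hft hXQ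
    · intro N l Z h1 h2 h3 h4
      exact strI_one ⟨⟨N, l, Z⟩, fine_of (d := ⟨N, l, Z⟩) h1 h2 h3, h4, rfl⟩
    · intro B _ _ hB
      exact strI_empty hI (inferInstanceAs (IsEmpty (PrimeSpectrum B)))
  obtain ⟨ι, hι, C, g, hC, hg, hx, hadd⟩ := key
  choose d hd hdQ hCd using hC
  obtain rfl : C = fun k => aff ℚ (d k).ring := funext hCd
  refine ⟨ι, hι, d, fun k => (g k).left, hd, hdQ, hg, hx, ?_⟩
  intro n hn
  have h3 := hadd (fun k => (n k : ℤ)) fun k => ⟨Int.natCast_nonneg _, by
    rw [Int.toNat_natCast]
    exact hn k⟩
  have h4 := h3.2
  rw [← Nat.cast_sum, Int.toNat_natCast] at h4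
  exact h4

/-- The groups `CH X i` are finitely generated for all schemes of finite type over `ℚ` in the class
`Q`. -/
def AllVarieties (i : ℕ) (Q : Scheme.{0} → Prop) : Prop :=
  ∀ X : Scheme.{0}, IsVariety ℚ X → Q X → IsFG (CH X i)

/-- The groups `CH X i` are finitely generated for all spaces of configurations in the class `Q`. -/
def Configurations (i : ℕ) (Q : Scheme.{0} → Prop) : Prop :=
  ∀ d : Datum, d.IsFine → Q d.space → IsFG (CH d.space i)

/-- The groups `CH X i` are finitely generated for all schemes of finite type and of dimension at
most `n` over all number fields. -/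
def AllNumberFields (i n : ℕ) : Prop :=
  ∀ (k : Type) [Field k] [NumberField k] (X : Scheme.{0}), IsVariety k X →
    topologicalKrullDim X ≤ n → IsFG (CH X i)

theorem configurations_iff (i : ℕ) {Q : Scheme.{0} → Prop} (hQ : Hereditary Q) :
    AllVarieties i Q ↔ Configurations i Q := by
  constructor
  · intro h d _ hd
    have hft := ft_datum d
    exact h d.space ⟨_, hft.locallyOfFiniteType, hft.quasiCompact⟩ hd
  · intro h X hX hXQ
    obtain ⟨ι, _, d, g, hdec⟩ := decomposition i hQ X hX hXQ
    have h1 : ∀ k, ∃ n, GenBy (CH (d k).space i) n := fun k =>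
      (isFG_iff _).1 (h (d k) (hdec.fine k) (hdec.mem k))
    choose n hn using h1
    exact (isFG_iff _).2 ⟨_, hdec.generators n hn⟩

lemma variety_rat {k : Type} [Field k] [NumberField k] {X : Scheme.{0}} (h : IsVariety k X) :
    IsVariety ℚ X := by
  obtain ⟨f, h1, h2⟩ := h
  have h3 : FT False (aff ℚ k) := ft_aff False
  have h4 : LocallyOfFiniteType (Spec.map (CommRingCat.ofHom (algebraMap ℚ k))) :=
    h3.locallyOfFiniteType
  have h5 : QuasiCompact (Spec.map (CommRingCat.ofHom (algebraMap ℚ k))) := h3.quasiCompact
  exact ⟨f ≫ Spec.map (CommRingCat.ofHom (algebraMap ℚ k)), inferInstance, inferInstance⟩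

lemma hereditary_dim (n : ℕ) : Hereditary fun X => topologicalKrullDim X ≤ n :=
  fun _ _ f _ h => (f.isEmbedding.isInducing.topologicalKrullDim_le).trans h

/-- **Finite generation of Chow groups and configurations of points on four lines.** -/
theorem result (i : ℕ) :
    (∀ Q : Scheme.{0} → Prop, Hereditary Q → ∀ X : Scheme.{0}, IsVariety ℚ X → Q X →
      ∃ (ι : Type) (_ : Fintype ι) (d : ι → Datum) (g : ∀ k, (d k).space ⟶ X),
        Decomposition i Q X d g) ∧
    (∀ Q : Scheme.{0} → Prop, Hereditary Q → (AllVarieties i Q ↔ Configurations i Q)) ∧
    ∀ n : ℕ, AllNumberFields i n ↔ Configurations i (fun X => topologicalKrullDim X ≤ n) := by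
  refine ⟨fun _ hQ X hX hXQ => decomposition i hQ X hX hXQ, fun _ hQ => configurations_iff i hQ,
    fun n => ?_⟩
  rw [← configurations_iff i (hereditary_dim n)]
  constructor
  · intro h X hX hn
    exact h ℚ X hX hn
  · intro h k _ _ X hX hn
    exact h X (variety_rat hX) hn

end Pool.Agent.Results.MP_b8021b_nt.ConfigurationSpaces
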