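import Mathlib
import Pool.Agent.H451.BB.Def2
import Pool.Agent.H451.BB.Fin2

/-!
# Beilinson and Bloch for a positive proportion of every one-coefficient family of diagonal cubics

The definitions are in `Pool.Agent.H451.BB.Def` and `Pool.Agent.H451.BB.Def2`.
-/

set_option autoImplicit false

namespace Pool.Agent.Results.MP_b8021b_nt.OneCoefficientFamilies

open NumberField Pool.Agent.H451.CubT

/-- **The conjecture of Beilinson and Bloch in one-coefficient families.** `K = ℚ(√-3)`, `n = 4` or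
`n = 6`, and the coefficients `a_0, …, a_(n-1)`, `1` modulo `3`, are fixed. For a proportion of at least
`0.639 ^ 5` (`n = 4`), `0.639 ^ 21` (`n = 6`) of the admissible `D`, which have positive lower density if
there is one, the conjecture holds for `∑ a_i x_i ^ 3 + D x_n ^ 3 = 0`. -/
theorem result (K : Type) [Field K] [NumberField K] [IsCyclotomicExtension {3} ℚ K] (n : ℕ)
    (hn : n = 4 ∨ n = 6) (a : Fin n → 𝓞 K) (ha : ∀ i, (3 : 𝓞 K) ∣ a i - 1) :
    ((∀ i, (9 : ℤ) ∣ Algebra.norm ℤ (a i) - 1) → (∃ D, Adm a D) ∧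
      ∀ D, Adm a D ↔ Cls D ∧ ∀ i, IsCoprime D (a i)) ∧
    ((∃ D, Adm a D) →
      (∃ c : ℝ, 0 < c ∧ ∃ X₀ : ℕ, ∀ X : ℕ, X₀ ≤ X →
        c * X ≤ ({D : 𝓞 K | Algebra.norm ℤ D ≤ X ∧ Adm a D}.ncard : ℝ)) ∧
      ∃ X₀ : ℕ, ∀ X : ℕ, X₀ ≤ X →
        0.639 ^ (n + 1).choose ((n - 2) / 2) *
            ({D : 𝓞 K | Algebra.norm ℤ D ≤ X ∧ Adm a D}.ncard : ℝ) ≤
          ({D : 𝓞 K | Algebra.norm ℤ D ≤ X ∧ Adm a D ∧ BB (co a D)}.ncard : ℝ)) :=
  final2 K n hn a ha

end Pool.Agent.Results.MP_b8021b_nt.OneCoefficientFamilies
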